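import Pool.Agent.Helper34.TR.Asm

/-!
Project MON (MP_b8862a_ag), block MON-3: the Lie algebra of the orthogonal group of a complex symmetric form in at least five
variables is simple.

`wd u v = u (Q' v)ᵀ - v (Q' u)ᵀ`; for a skew `A` one has `[A, wd u v] = wd (A u) v + wd u (A v)`. Let `f_a` be an orthonormal basis and
`X ∈ M`, `B (f_d, X f_b) ≠ 0`, `d ≠ b`. For `a, c, e` different from each other and from `b, d`:
`[wd f_d f_a, [wd f_e f_c, [wd f_c f_d, [X, wd f_a f_b]]]] = B (f_d, X f_b) wd f_d f_e`. So `wd f_d f_e ∈ M`, hence all `wd f_p f_q`.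
-/

set_option linter.unusedSectionVars false

open Matrix

namespace MH

variable {n : Type*} [Fintype n] [DecidableEq n]

/-- the wedge of two vectors -/
private def wd (Q' : Matrix n n ℂ) (u v : n → ℂ) : Matrix n n ℂ := vecMulVec u (Q' *ᵥ v) - vecMulVec v (Q' *ᵥ u)

/-- the form -/
private def bf (Q' : Matrix n n ℂ) (u v : n → ℂ) : ℂ := (Q' *ᵥ u) ⬝ᵥ v

private theorem bf_comm {Q' : Matrix n n ℂ} (hs : Q'ᵀ = Q') (u v : n → ℂ) : bf Q' u v = bf Q' v u := by
  rw [bf, bf, dotProduct_comm, dotProduct_mulVec, ← mulVec_transpose, hs]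

private theorem wd_mulVec (Q' : Matrix n n ℂ) (u v x : n → ℂ) : wd Q' u v *ᵥ x = bf Q' v x • u - bf Q' u x • v := by
  rw [wd, sub_mulVec, vecMulVec_mulVec, vecMulVec_mulVec]
  simp only [bf, op_smul_eq_smul]

private theorem wd_swap (Q' : Matrix n n ℂ) (u v : n → ℂ) : wd Q' u v = -wd Q' v u := by
  rw [wd, wd, neg_sub]

private theorem wd_self (Q' : Matrix n n ℂ) (u : n → ℂ) : wd Q' u u = 0 := by
  rw [wd, sub_self]

private theorem wd_add_left (Q' : Matrix n n ℂ) (u u' v : n → ℂ) : wd Q' (u + u') v = wd Q' u v + wd Q' u' v := by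
  simp only [wd, mulVec_add, add_vecMulVec, vecMulVec_add]
  abel

private theorem wd_smul_left (Q' : Matrix n n ℂ) (c : ℂ) (u v : n → ℂ) : wd Q' (c • u) v = c • wd Q' u v := by
  simp only [wd, mulVec_smul, smul_vecMulVec, vecMulVec_smul, smul_sub]

private theorem wd_sub_left (Q' : Matrix n n ℂ) (u u' v : n → ℂ) : wd Q' (u - u') v = wd Q' u v - wd Q' u' v := by
  rw [sub_eq_add_neg, ← neg_one_smul ℂ u', wd_add_left, wd_smul_left, neg_one_smul, sub_eq_add_neg]

private theorem wd_zero_left (Q' : Matrix n n ℂ) (v : n → ℂ) : wd Q' 0 v = 0 := by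
  rw [← zero_smul ℂ (0 : n → ℂ), wd_smul_left, zero_smul]

private theorem wd_smul_right (Q' : Matrix n n ℂ) (c : ℂ) (u v : n → ℂ) : wd Q' u (c • v) = c • wd Q' u v := by
  rw [wd_swap, wd_smul_left, wd_swap Q' v u, smul_neg, neg_neg]

private theorem wd_sub_right (Q' : Matrix n n ℂ) (u v v' : n → ℂ) : wd Q' u (v - v') = wd Q' u v - wd Q' u v' := by
  rw [wd_swap, wd_sub_left, wd_swap Q' v u, wd_swap Q' v' u]
  abel

private theorem wd_zero_right (Q' : Matrix n n ℂ) (u : n → ℂ) : wd Q' u 0 = 0 := by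
  rw [wd_swap, wd_zero_left, neg_zero]

private theorem skew_iff {Q' A : Matrix n n ℂ} (hA : Aᵀ * Q' + Q' * A = 0) : Aᵀ * Q' = -(Q' * A) := eq_neg_of_add_eq_zero_left hA

/-- the bracket with a wedge -/
private theorem br_wd {Q' A : Matrix n n ℂ} (hA : Aᵀ * Q' + Q' * A = 0) (u v : n → ℂ) :
    A * wd Q' u v - wd Q' u v * A = wd Q' (A *ᵥ u) v + wd Q' u (A *ᵥ v) := by
  have h1 : ∀ x y : n → ℂ, vecMulVec x (Q' *ᵥ y) * A = -vecMulVec x (Q' *ᵥ (A *ᵥ y)) := by
    intro x y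
    rw [vecMulVec_mul, ← mulVec_transpose, mulVec_mulVec, skew_iff hA, neg_mulVec, vecMulVec_neg, mulVec_mulVec]
  rw [wd, mul_sub, sub_mul, mul_vecMulVec, mul_vecMulVec, h1, h1, wd, wd]
  abel

private theorem wd_skew {Q' : Matrix n n ℂ} (hs : Q'ᵀ = Q') (u v : n → ℂ) :
    (wd Q' u v)ᵀ * Q' + Q' * wd Q' u v = 0 := by
  have h1 : ∀ x y : n → ℂ, vecMulVec (Q' *ᵥ x) y * Q' = vecMulVec (Q' *ᵥ x) (Q' *ᵥ y) := by
    intro x y
    rw [vecMulVec_mul, ← mulVec_transpose, hs]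
  rw [wd, transpose_sub, transpose_vecMulVec, transpose_vecMulVec, sub_mul, mul_sub, mul_vecMulVec, mul_vecMulVec, h1, h1]
  abel

private theorem bf_skew {Q' A : Matrix n n ℂ} (hA : Aᵀ * Q' + Q' * A = 0) (u v : n → ℂ) :
    bf Q' u (A *ᵥ v) = -bf Q' (A *ᵥ u) v := by
  rw [bf, bf, dotProduct_mulVec, ← mulVec_transpose, mulVec_mulVec, skew_iff hA, neg_mulVec, neg_dotProduct, mulVec_mulVec]

/-- the bracket -/
private def ad (A Z : Matrix n n ℂ) : Matrix n n ℂ := A * Z - Z * A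

private theorem ad_add (A Z Z' : Matrix n n ℂ) : ad A (Z + Z') = ad A Z + ad A Z' := by
  simp only [ad, mul_add, add_mul]
  abel

private theorem ad_sub (A Z Z' : Matrix n n ℂ) : ad A (Z - Z') = ad A Z - ad A Z' := by
  simp only [ad, mul_sub, sub_mul]
  abel

private theorem ad_smul (A : Matrix n n ℂ) (c : ℂ) (Z : Matrix n n ℂ) : ad A (c • Z) = c • ad A Z := by
  rw [ad, ad, Matrix.mul_smul, Matrix.smul_mul, smul_sub]

private theorem simple_aux {κ : Type} [Fintype κ] [DecidableEq κ] {Q' : Matrix n n ℂ} (hs : Q'ᵀ = Q') {W : Matrix n κ ℂ}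
    (hW1 : Wᵀ * Q' * W = 1) (hW2 : W * (Wᵀ * Q') = 1) (hk : 5 ≤ Fintype.card κ)
    {M : Submodule ℂ (Matrix n n ℂ)} (hsk : ∀ X ∈ M, Xᵀ * Q' + Q' * X = 0)
    (hid : ∀ Y : Matrix n n ℂ, Yᵀ * Q' + Q' * Y = 0 → ∀ X ∈ M, Y * X - X * Y ∈ M) (h0 : M ≠ ⊥)
    {Y : Matrix n n ℂ} (hY : Yᵀ * Q' + Q' * Y = 0) : Y ∈ M := by
  obtain ⟨f, hf⟩ : ∃ f : κ → n → ℂ, ∀ a i, f a i = W i a := ⟨fun a i => W i a, fun _ _ => rfl⟩
  -- orthonormality
  have hff : ∀ a b, bf Q' (f a) (f b) = if a = b then 1 else 0 := by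
    intro a b
    have h1 : (Wᵀ * Q' * W) b a = bf Q' (f a) (f b) := by
      rw [bf, Matrix.mul_assoc, mul_apply, dotProduct_comm]
      refine Finset.sum_congr rfl fun i _ => ?_
      rw [transpose_apply, hf, mul_apply]
      congr 1
      exact Finset.sum_congr rfl fun j _ => by rw [hf]
    rw [← h1, hW1, one_apply]
    simp only [eq_comm]
  have h1 : ∀ a, bf Q' (f a) (f a) = 1 := fun a => by rw [hff, if_pos rfl]
  have h2 : ∀ a b, a ≠ b → bf Q' (f a) (f b) = 0 := fun a b h => by rw [hff, if_neg h]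
  -- expansion
  have hex : ∀ x : n → ℂ, x = ∑ p, bf Q' (f p) x • f p := by
    intro x
    have h3 : x = (W * (Wᵀ * Q')) *ᵥ x := by rw [hW2, one_mulVec]
    have h4 : ∀ p, (Wᵀ *ᵥ (Q' *ᵥ x)) p = bf Q' (f p) x := by
      intro p
      rw [bf_comm hs, bf, mulVec, dotProduct_comm]
      refine Finset.sum_congr rfl fun i _ => ?_
      rw [hf]
      rfl
    conv_lhs => rw [h3]
    rw [← mulVec_mulVec, ← mulVec_mulVec]
    ext i
    rw [mulVec, dotProduct, Finset.sum_apply]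
    refine Finset.sum_congr rfl fun p _ => ?_
    rw [h4, Pi.smul_apply, smul_eq_mul, hf, mul_comm]
  have hext : ∀ A B : Matrix n n ℂ, (∀ b, A *ᵥ f b = B *ᵥ f b) → A = B := by
    intro A B h
    have h3 : A * W = B * W := by
      ext i b
      have h4 := congrFun (h b) i
      rw [mulVec, mulVec, dotProduct, dotProduct] at h4
      rw [mul_apply, mul_apply]
      simpa only [hf] using h4
    calc A = A * (W * (Wᵀ * Q')) := by rw [hW2, mul_one]
      _ = A * W * (Wᵀ * Q') := by rw [Matrix.mul_assoc]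
      _ = B * W * (Wᵀ * Q') := by rw [h3]
      _ = B * (W * (Wᵀ * Q')) := by rw [Matrix.mul_assoc]
      _ = B := by rw [hW2, mul_one]
  -- wedges and basis vectors
  have g1 : ∀ p q, p ≠ q → wd Q' (f p) (f q) *ᵥ f q = f p := by
    intro p q h
    rw [wd_mulVec, h1, h2 p q h, one_smul, zero_smul, sub_zero]
  have g2 : ∀ p q b, b ≠ p → b ≠ q → wd Q' (f p) (f q) *ᵥ f b = 0 := by
    intro p q b hp hq
    rw [wd_mulVec, h2 q b hq.symm, h2 p b hp.symm, zero_smul, zero_smul, sub_zero]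
  have hbr : ∀ p q u v, ad (wd Q' (f p) (f q)) (wd Q' u v) = wd Q' (wd Q' (f p) (f q) *ᵥ u) v +
      wd Q' u (wd Q' (f p) (f q) *ᵥ v) := fun p q u v => br_wd (wd_skew hs _ _) u v
  have hM : ∀ p q, ∀ Z ∈ M, ad (wd Q' (f p) (f q)) Z ∈ M := fun p q Z hZ => hid _ (wd_skew hs _ _) Z hZ
  -- one wedge in `M`
  obtain ⟨d, e, hde, hmem⟩ : ∃ d e, d ≠ e ∧ wd Q' (f d) (f e) ∈ M := by
    obtain ⟨X, hX, hX0⟩ := Submodule.exists_mem_ne_zero_of_ne_bot h0
    have hXs := hsk X hX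
    obtain ⟨b, d, hbd⟩ : ∃ b d, bf Q' (f d) (X *ᵥ f b) ≠ 0 := by
      by_contra hc
      push Not at hc
      refine hX0 (hext X 0 fun b => ?_)
      rw [zero_mulVec, hex (X *ᵥ f b)]
      exact Finset.sum_eq_zero fun p _ => by rw [hc b p, zero_smul]
    have hdb : d ≠ b := by
      rintro rfl
      have h3 := bf_skew hXs (f d) (f d)
      rw [bf_comm hs (X *ᵥ f d)] at h3
      have h4 : (2 : ℂ) * bf Q' (f d) (X *ᵥ f d) = 0 := by linear_combination h3
      exact hbd (by simpa using h4)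
    obtain ⟨a, c, e, ha, hc, he, hac, hae, hce⟩ : ∃ a c e, (a ≠ b ∧ a ≠ d) ∧ (c ≠ b ∧ c ≠ d) ∧ (e ≠ b ∧ e ≠ d) ∧
        a ≠ c ∧ a ≠ e ∧ c ≠ e := by
      have h3 : 2 < (({b, d} : Finset κ)ᶜ).card := by
        have h4 : ({b, d} : Finset κ).card ≤ 2 := Finset.card_le_two
        rw [Finset.card_compl]
        omega
      obtain ⟨a, ha, c, hc, e, he, h5, h6, h7⟩ := Finset.two_lt_card.1 h3
      simp only [Finset.mem_compl, Finset.mem_insert, Finset.mem_singleton, not_or] at ha hc he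
      exact ⟨a, c, e, ha, hc, he, h5, h6, h7⟩
    refine ⟨d, e, he.2.symm, ?_⟩
    have z1 : wd Q' (X *ᵥ f a) (f b) + wd Q' (f a) (X *ᵥ f b) ∈ M := by
      rw [← br_wd hXs]
      have h3 := M.neg_mem (hid _ (wd_skew hs (f a) (f b)) X hX)
      rwa [neg_sub] at h3
    have z2 := hM c d _ z1
    rw [ad_add, hbr, hbr, g2 c d b hc.1.symm hdb.symm, g2 c d a hac ha.2, wd_zero_right, wd_zero_left, add_zero, zero_add,
      wd_mulVec, wd_mulVec, wd_sub_left, wd_sub_right, wd_smul_left, wd_smul_left, wd_smul_right, wd_smul_right] at z2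
    have z3 := hM e c _ z2
    simp only [ad_add, ad_sub, ad_smul, hbr, g1 e c hce.symm, g2 e c b he.1.symm hc.1.symm, g2 e c d he.2.symm hc.2.symm,
      g2 e c a hae hac, wd_zero_right, wd_zero_left, add_zero, smul_zero, sub_zero, zero_add] at z3
    have z4 := hM d a _ z3
    simp only [ad_add, ad_smul, hbr, g2 d a e he.2 hae.symm, g2 d a b hdb.symm ha.1.symm, g1 d a ha.2.symm,
      wd_zero_left, wd_zero_right, add_zero, smul_zero, zero_add] at z4
    exact (M.smul_mem_iff hbd).1 z4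
  -- all wedges are in `M`
  have hall1 : ∀ p, p ≠ e → wd Q' (f p) (f e) ∈ M := by
    intro p hp
    by_cases hpd : p = d
    · rw [hpd]; exact hmem
    · have h3 := hM p d _ hmem
      rw [hbr, g1 p d hpd, g2 p d e hp.symm hde.symm, wd_zero_right, add_zero] at h3
      exact h3
  have hall : ∀ p q, wd Q' (f p) (f q) ∈ M := by
    intro p q
    by_cases hpq : p = q
    · rw [hpq, wd_self]
      exact M.zero_mem
    · by_cases hq : q = e
      · rw [hq]
        exact hall1 p (by rw [← hq]; exact hpq)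
      · by_cases hp : p = e
        · rw [hp, wd_swap]
          exact M.neg_mem (hall1 q hq)
        · have h3 := hM p e _ (M.neg_mem (hall1 q hq))
          rw [← wd_swap, hbr, g1 p e hp, g2 p e q (Ne.symm hpq) hq, wd_zero_right, add_zero] at h3
          exact h3
  -- expansion of `Y`
  have hYe : Y = ∑ p, ∑ q, (1 / 2 * bf Q' (f p) (Y *ᵥ f q)) • wd Q' (f p) (f q) := by
    refine hext _ _ fun b => ?_
    rw [sum_mulVec]
    have h3 : ∀ p, (∑ q, (1 / 2 * bf Q' (f p) (Y *ᵥ f q)) • wd Q' (f p) (f q)) *ᵥ f b =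
        (1 / 2 * bf Q' (f p) (Y *ᵥ f b)) • f p - (if p = b then ∑ q, (1 / 2 * bf Q' (f p) (Y *ᵥ f q)) • f q else 0) := by
      intro p
      rw [sum_mulVec]
      have h4 : ∀ q, ((1 / 2 * bf Q' (f p) (Y *ᵥ f q)) • wd Q' (f p) (f q)) *ᵥ f b =
          (if q = b then (1 / 2 * bf Q' (f p) (Y *ᵥ f q)) • f p else 0) -
            (if p = b then (1 / 2 * bf Q' (f p) (Y *ᵥ f q)) • f q else 0) := by
        intro q
        rw [smul_mulVec, wd_mulVec, hff, hff, smul_sub]
        congr 1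
        · split_ifs
          · rw [one_smul]
          · rw [zero_smul, smul_zero]
        · split_ifs
          · rw [one_smul]
          · rw [zero_smul, smul_zero]
      rw [Finset.sum_congr rfl fun q _ => h4 q, Finset.sum_sub_distrib]
      congr 1
      · rw [Finset.sum_ite_eq' Finset.univ b, if_pos (Finset.mem_univ b)]
      · split_ifs
        · rfl
        · exact Finset.sum_const_zero
    rw [Finset.sum_congr rfl fun p _ => h3 p, Finset.sum_sub_distrib, Finset.sum_ite_eq' Finset.univ b,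
      if_pos (Finset.mem_univ b), ← Finset.sum_sub_distrib]
    conv_lhs => rw [hex (Y *ᵥ f b)]
    refine Finset.sum_congr rfl fun p _ => ?_
    rw [← sub_smul]
    congr 1
    have h5 := bf_skew hY (f b) (f p)
    rw [bf_comm hs (Y *ᵥ f b)] at h5
    rw [h5]
    ring
  rw [hYe]
  exact M.sum_mem fun p _ => M.sum_mem fun q _ => M.smul_mem _ (hall p q)

/-- MON-3: the Lie algebra of the orthogonal group is simple. -/
theorem so_simple {Q' : Matrix n n ℂ} (hs : Q'ᵀ = Q') (hd : Q'.det ≠ 0) (hn : 5 ≤ Fintype.card n)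
    {M : Submodule ℂ (Matrix n n ℂ)} (hsk : ∀ X ∈ M, Xᵀ * Q' + Q' * X = 0)
    (hid : ∀ Y : Matrix n n ℂ, Yᵀ * Q' + Q' * Y = 0 → ∀ X ∈ M, Y * X - X * Y ∈ M) (h0 : M ≠ ⊥)
    {Y : Matrix n n ℂ} (hY : Yᵀ * Q' + Q' * Y = 0) : Y ∈ M := by
  obtain ⟨W, hW1, hW2⟩ := exists_orth hs hd (e := (1 : Matrix n n ℂ)) (mul_one _) (by rw [transpose_one, one_mul, mul_one])
  exact simple_aux hs hW1 hW2 (by rw [Fintype.card_fin, rank_one]; exact hn) hsk hid h0 hY

end MH
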